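import Pool.Agent.DST.FIX
import Pool.Agent.DST.GEN

/-!
Problem MP_0f73d6_co, Q1: double Stanley functions of signed permutations at y = -x.

All objects are defined in Pool/Agent/DST/Defs.lean: generators gen i of the hyperoctahedral group acting
on the integers, signed permutations IsSigned, reduced words Red, unknotted elements, k-factorizations
Facs and their weights wt, the double Stanley polynomial Fd in x_1..x_k, y_1..y_k, signed
Edelman-Greene tableaux IsTab, their numbers EG, Schur polynomials schur, the right hand side rhs.

The first part proves the identity of Q1, for every unknotted element whose reduced words contain 0 at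
most once and every number k of variables, with the sign (-1)^l (l the length): subst is the
substitution y = -x.  Equivalently (subst' is the substitution x_j → -x_j, y_j → x_j), if the roles of x and
y in the weight are exchanged the identity holds exactly as stated.  The second part records that the
literal form without the sign fails for s_0.
-/

namespace Pool.Agent.Results.MP_0f73d6_co.DoubleStanley

open DST

theorem result :
    (∀ n : ℕ, 1 ≤ n → ∀ ω : Equiv.Perm ℤ, IsSigned n ω → Unknotted n ω →
      (∀ w ∈ Red n ω, w.count 0 ≤ 1) →
      (Red n ω).Nonempty ∧ (∀ k, (Facs n ω k).Finite) ∧ (∀ μ, {T | IsTab n ω μ T}.Finite) ∧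
      ∀ k, subst' k (Fd n ω k) = rhs n ω k ∧
        ∀ w ∈ Red n ω, subst k (Fd n ω k) = (-1 : ℤ) ^ w.length • rhs n ω k) ∧
    (∀ n : ℕ, 1 ≤ n → IsSigned n (gen 0) ∧ Unknotted n (gen 0) ∧
      (∀ w ∈ Red n (gen 0), w.count 0 ≤ 1) ∧
      ∀ k, 1 ≤ k → subst k (Fd n (gen 0) k) ≠ rhs n (gen 0) k) := by
  refine ⟨fun n _ ω hω hu h0 => ⟨red_nonempty hω,
    fun k => fac_finite (W := fun w => w ∈ Red n ω) (red_finite n ω) k,
    fun μ => istab_finite n ω μ, fun k => ⟨final' hu h0 k, fun w hw => final hu h0 k hw⟩⟩,
    fun n hn => ⟨gen0_signed hn, gen0_unknotted n, gen0_count n, fun k hk => gen0_fails n k hk⟩⟩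

end Pool.Agent.Results.MP_0f73d6_co.DoubleStanley
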